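import Mathlib

open Matrix

namespace Pool.Agent.Results.MP_808179_co.NestingFails

/-- `A` belongs to `S(G)`: it is real symmetric and its off-diagonal zero pattern is that of `G`. -/
def InS {n : ℕ} (G : SimpleGraph (Fin n)) (A : Matrix (Fin n) (Fin n) ℝ) : Prop :=
  A.IsSymm ∧ ∀ i j, i ≠ j → (A i j ≠ 0 ↔ G.Adj i j)

/-- The eigenspace `{v | A v = x v}` of `A` for the real number `x`. -/
def eigSpace {n : ℕ} (A : Matrix (Fin n) (Fin n) ℝ) (x : ℝ) : Submodule ℝ (Fin n → ℝ) :=
  Module.End.eigenspace (Matrix.toLin' A) x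

/-- The multiplicity of the real number `x` as an eigenvalue of `A` (it is `0` when `x` is not an
eigenvalue). -/
noncomputable def mult {n : ℕ} (A : Matrix (Fin n) (Fin n) ℝ) (x : ℝ) : ℕ :=
  Module.finrank ℝ (eigSpace A x)

/-- `G` achieves the multiplicity bipartition `[n - k, k]`: some matrix of `S(G)` has exactly two
distinct eigenvalues `lam` and `mu`, and their multiplicities are `n - k` and `k`. -/
def Achieves {n : ℕ} (G : SimpleGraph (Fin n)) (k : ℕ) : Prop :=
  ∃ A : Matrix (Fin n) (Fin n) ℝ, InS G A ∧ ∃ lam mu : ℝ, lam ≠ mu ∧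
    (∀ x : ℝ, mult A x ≠ 0 ↔ x = lam ∨ x = mu) ∧ mult A lam = n - k ∧ mult A mu = k

/-- The class `MP([n - k, k])`. -/
def MP (n k : ℕ) : Set (SimpleGraph (Fin n)) := {G | Achieves G k}

/-! ### From two eigenvalues to a projection, and back -/

theorem exists_proj {n k : ℕ} (hk : k ≤ n) {A : Matrix (Fin n) (Fin n) ℝ} {lam mu : ℝ}
    (hne : lam ≠ mu)
    (h1 : mult A lam = n - k) (h2 : mult A mu = k) :
    ((mu - lam)⁻¹ • (A - lam • (1 : Matrix (Fin n) (Fin n) ℝ))) *
      ((mu - lam)⁻¹ • (A - lam • (1 : Matrix (Fin n) (Fin n) ℝ))) =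
      ((mu - lam)⁻¹ • (A - lam • (1 : Matrix (Fin n) (Fin n) ℝ))) ∧
    ((mu - lam)⁻¹ • (A - lam • (1 : Matrix (Fin n) (Fin n) ℝ))).trace = (k : ℝ) := by
  unfold mult eigSpace at h1 h2
  set P : Matrix (Fin n) (Fin n) ℝ := (mu - lam)⁻¹ • (A - lam • (1 : Matrix (Fin n) (Fin n) ℝ))
    with hPdef
  set f := Matrix.toLin' A with hf
  set E1 := Module.End.eigenspace f lam with hE1
  set E2 := Module.End.eigenspace f mu with hE2
  have hml : mu - lam ≠ 0 := sub_ne_zero.mpr (Ne.symm hne)
  have hdisj : Disjoint E1 E2 := by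
    rw [Submodule.disjoint_def]
    intro x hx1 hx2
    rw [hE1, Module.End.mem_eigenspace_iff] at hx1
    rw [hE2, Module.End.mem_eigenspace_iff] at hx2
    have h3 : (mu - lam) • x = 0 := by
      rw [sub_smul, ← hx1, ← hx2, sub_self]
    exact (smul_eq_zero.mp h3).resolve_left hml
  have htop : E1 ⊔ E2 = ⊤ := by
    apply Submodule.eq_top_of_finrank_eq
    have h3 := Submodule.finrank_sup_add_finrank_inf_eq E1 E2
    rw [hdisj.eq_bot, finrank_bot, h1, h2] at h3
    simp only [Module.finrank_fin_fun]
    omega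
  have hg : ∀ x, Matrix.toLin' P x = (mu - lam)⁻¹ • (f x - lam • x) := by
    intro x
    simp [hPdef, hf]
  have hg1 : ∀ x ∈ E1, Matrix.toLin' P x = 0 := by
    intro x hx
    rw [hE1, Module.End.mem_eigenspace_iff] at hx
    rw [hg, hx, sub_self, smul_zero]
  have hg2 : ∀ x ∈ E2, Matrix.toLin' P x = x := by
    intro x hx
    rw [hE2, Module.End.mem_eigenspace_iff] at hx
    rw [hg, hx, ← sub_smul, smul_smul, inv_mul_cancel₀ hml, one_smul]
  have hproj : LinearMap.IsProj E2 (Matrix.toLin' P) := by
    refine ⟨fun x => ?_, hg2⟩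
    have hx : x ∈ E1 ⊔ E2 := by rw [htop]; trivial
    obtain ⟨y, hy, z, hz, rfl⟩ := Submodule.mem_sup.mp hx
    rw [map_add, hg1 y hy, hg2 z hz, zero_add]
    exact hz
  constructor
  · apply Matrix.toLin'.injective
    rw [Matrix.toLin'_mul]
    refine LinearMap.ext fun x => ?_
    exact hproj.map_id _ (hproj.map_mem x)
  · rw [← Matrix.trace_toLin'_eq, hproj.trace, h2]

theorem achieves_of_proj {n k : ℕ} (G : SimpleGraph (Fin n)) (P : Matrix (Fin n) (Fin n) ℝ)
    (hs : InS G P) (hP : P * P = P) (ht : P.trace = (k : ℝ)) (hk0 : 0 < k) (hkn : k < n) :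
    Achieves G k := by
  have hcomp : (Matrix.toLin' P).comp (Matrix.toLin' P) = Matrix.toLin' P := by
    rw [← Matrix.toLin'_mul, hP]
  have hidem : ∀ x, Matrix.toLin' P (Matrix.toLin' P x) = Matrix.toLin' P x := fun x =>
    LinearMap.ext_iff.mp hcomp x
  have hE1 : Module.End.eigenspace (Matrix.toLin' P) 1 = LinearMap.range (Matrix.toLin' P) := by
    ext x
    rw [Module.End.mem_eigenspace_iff, one_smul, LinearMap.mem_range]
    constructor
    · intro h
      exact ⟨x, h⟩
    · rintro ⟨y, rfl⟩
      exact hidem y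
  have hE0 : Module.End.eigenspace (Matrix.toLin' P) 0 = LinearMap.ker (Matrix.toLin' P) := by
    ext x
    rw [Module.End.mem_eigenspace_iff, zero_smul, LinearMap.mem_ker]
  have hproj : LinearMap.IsProj (LinearMap.range (Matrix.toLin' P)) (Matrix.toLin' P) := by
    refine ⟨fun x => LinearMap.mem_range_self _ x, ?_⟩
    rintro _ ⟨y, rfl⟩
    exact hidem y
  have hr : Module.finrank ℝ (LinearMap.range (Matrix.toLin' P)) = k := by
    have h1 := hproj.trace
    rw [Matrix.trace_toLin'_eq, ht] at h1
    exact_mod_cast h1.symm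
  have hker : Module.finrank ℝ (LinearMap.ker (Matrix.toLin' P)) = n - k := by
    have h1 := LinearMap.finrank_range_add_finrank_ker (Matrix.toLin' P)
    rw [hr, Module.finrank_fin_fun] at h1
    omega
  refine ⟨P, hs, 0, 1, zero_ne_one, ?_, ?_, ?_⟩
  · intro x
    constructor
    · intro hx
      have hx1 : ∃ v ∈ eigSpace P x, v ≠ 0 := by
        apply Submodule.exists_mem_ne_zero_of_ne_bot
        intro h
        apply hx
        unfold mult
        rw [h, finrank_bot]
      obtain ⟨v, hv, hv0⟩ := hx1
      have h1 : Matrix.toLin' P v = x • v := Module.End.mem_eigenspace_iff.mp hv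
      have h2 := hidem v
      rw [h1, map_smul, h1, smul_smul] at h2
      have h3 : (x * x - x) • v = 0 := by rw [sub_smul, h2, sub_self]
      have h4 : x * x - x = 0 := (smul_eq_zero.mp h3).resolve_right hv0
      have h5 : x * (x - 1) = 0 := by linarith
      rcases mul_eq_zero.mp h5 with h6 | h6
      · exact Or.inl h6
      · exact Or.inr (by linarith)
    · rintro (rfl | rfl)
      · unfold mult eigSpace
        rw [hE0, hker]
        omega
      · unfold mult eigSpace
        rw [hE1, hr]
        omega
  · unfold mult eigSpace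
    rw [hE0, hker]
  · unfold mult eigSpace
    rw [hE1, hr]

/-! ### The graph: vertex `6 l + 2 i + a` is the `a`-th copy of vertex `i` in layer `l`. -/

def adjB (u v : Fin 18) : Bool :=
  let l := u.val / 6
  let m := v.val / 6
  let i := (u.val % 6) / 2
  let j := (v.val % 6) / 2
  (i == j && (l + 1 == m || m + 1 == l)) || (i != j && l == m && l != 1)

def G18 : SimpleGraph (Fin 18) where
  Adj u v := adjB u v = true
  symm := ⟨by decide +kernel⟩
  loopless := ⟨by decide +kernel⟩

instance : DecidableRel G18.Adj := fun u v => inferInstanceAs (Decidable (adjB u v = true))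

/-! ### Existence of the matrix of rank `8` -/

/-- six times the projection, over `ℤ[√2]` -/
def Z18f : Fin 18 → Fin 18 → ℤ√2 := fun u v =>
  let l := u.val / 6
  let m := v.val / 6
  let i := (u.val % 6) / 2
  let j := (v.val % 6) / 2
  let a := u.val % 2
  let b := v.val % 2
  if u = v then (if l = 1 then 4 else 2)
  else if i = j then
    if l + m = 1 then (if (if l = 0 then a else b) = 0 then ⟨0, 1⟩ else ⟨0, -1⟩)
    else if l + m = 3 then (if a = b then ⟨0, 1⟩ else ⟨0, -1⟩)
    else 0
  else if l = m ∧ l ≠ 1 then 1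
  else 0

def Z18 : Matrix (Fin 18) (Fin 18) (ℤ√2) := Z18f

theorem Z18_sq : Z18 * Z18 = 6 • Z18 := by
  decide +kernel

theorem Z18_symm : Z18.transpose = Z18 := by
  decide +kernel

theorem Z18_pattern : ∀ i j : Fin 18, i ≠ j → (Z18f i j ≠ (0 : ℤ√2) ↔ adjB i j = true) := by
  decide +kernel

theorem Z18_trace : Z18.trace = 48 := by
  decide +kernel

/-- the embedding of `ℤ[√2]` into the reals -/
noncomputable def emb : ℤ√2 →+* ℝ :=
  Zsqrtd.lift ⟨Real.sqrt 2, by norm_num⟩

theorem emb_injective : Function.Injective emb := by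
  apply Zsqrtd.lift_injective
  intro n h
  have h2 : (n * n : ℤ) = 2 := h.symm
  have h3 : n ≤ 1 ∨ 2 ≤ n := by omega
  have h4 : -1 ≤ n ∨ n ≤ -2 := by omega
  rcases h3 with h3 | h3
  · rcases h4 with h4 | h4
    · have : n = -1 ∨ n = 0 ∨ n = 1 := by omega
      rcases this with rfl | rfl | rfl <;> norm_num at h2
    · nlinarith
  · nlinarith

noncomputable def P18 : Matrix (Fin 18) (Fin 18) ℝ := (1 / 6 : ℝ) • (emb.mapMatrix Z18)

theorem achieves_eight : Achieves G18 8 := by
  apply achieves_of_proj G18 P18
  · constructor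
    · unfold Matrix.IsSymm P18
      rw [Matrix.transpose_smul]
      congr 1
      rw [RingHom.mapMatrix_apply, ← Matrix.transpose_map, Z18_symm]
    · intro i j hij
      change _ ↔ adjB i j = true
      rw [← Z18_pattern i j hij]
      change _ ↔ Z18 i j ≠ 0
      unfold P18
      simp only [Matrix.smul_apply, RingHom.mapMatrix_apply, Matrix.map_apply, smul_eq_mul]
      constructor
      · intro h h2
        apply h
        rw [h2, map_zero, mul_zero]
      · intro h h2
        apply h
        apply emb_injective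
        rw [map_zero]
        rcases mul_eq_zero.mp h2 with h3 | h3
        · norm_num at h3
        · exact h3
  · unfold P18
    rw [Matrix.smul_mul, Matrix.mul_smul, ← map_mul, Z18_sq, map_nsmul, smul_smul]
    rw [← Nat.cast_smul_eq_nsmul ℝ, smul_smul]
    norm_num
  · unfold P18
    rw [Matrix.trace_smul]
    have h : (emb.mapMatrix Z18).trace = emb Z18.trace := by
      simp [Matrix.trace]
    rw [h, Z18_trace, map_ofNat, smul_eq_mul]
    norm_num
  · norm_num
  · norm_num

/-! ### Nonexistence of a matrix of rank `9` -/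

theorem core {s1 s2 s3 A B C n1 n2 n3 : ℝ} (hA : A ≠ 0) (hB : B ≠ 0) (hC : C ≠ 0)
    (h12 : (s1 + s2 - 1) * A + B * C * n3 = 0) (h13 : (s1 + s3 - 1) * B + A * C * n2 = 0)
    (h23 : (s2 + s3 - 1) * C + A * B * n1 = 0)
    (hd : s1 ^ 2 + n1 * (A ^ 2 * n2 + B ^ 2 * n3) = s1) :
    (s1 + s2 + s3 - 1) * (s1 + s2 + s3 - 2) = 0 := by
  have h1 : (s1 + s2 - 1) * (s2 + s3 - 1) = B ^ 2 * n1 * n3 := by
    have h : (A * C) * ((s1 + s2 - 1) * (s2 + s3 - 1)) = (A * C) * (B ^ 2 * n1 * n3) := by
      have e1 : (s1 + s2 - 1) * A = -(B * C * n3) := by linarith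
      have e2 : (s2 + s3 - 1) * C = -(A * B * n1) := by linarith
      calc (A * C) * ((s1 + s2 - 1) * (s2 + s3 - 1))
          = ((s1 + s2 - 1) * A) * ((s2 + s3 - 1) * C) := by ring
        _ = (-(B * C * n3)) * (-(A * B * n1)) := by rw [e1, e2]
        _ = _ := by ring
    exact mul_left_cancel₀ (mul_ne_zero hA hC) h
  have h2 : (s1 + s3 - 1) * (s2 + s3 - 1) = A ^ 2 * n1 * n2 := by
    have h : (B * C) * ((s1 + s3 - 1) * (s2 + s3 - 1)) = (B * C) * (A ^ 2 * n1 * n2) := by
      have e1 : (s1 + s3 - 1) * B = -(A * C * n2) := by linarith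
      have e2 : (s2 + s3 - 1) * C = -(A * B * n1) := by linarith
      calc (B * C) * ((s1 + s3 - 1) * (s2 + s3 - 1))
          = ((s1 + s3 - 1) * B) * ((s2 + s3 - 1) * C) := by ring
        _ = (-(A * C * n2)) * (-(A * B * n1)) := by rw [e1, e2]
        _ = _ := by ring
    exact mul_left_cancel₀ (mul_ne_zero hB hC) h
  have h3 : s1 ^ 2 + ((s1 + s3 - 1) * (s2 + s3 - 1) + (s1 + s2 - 1) * (s2 + s3 - 1)) = s1 := by
    rw [h1, h2]
    linarith
  nlinarith [h3]

theorem sum18 (f : Fin 18 → ℝ) : ∑ k, f k = f 0 + f 1 + f 2 + f 3 + f 4 + f 5 + f 6 + f 7 + f 8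
    + f 9 + f 10 + f 11 + f 12 + f 13 + f 14 + f 15 + f 16 + f 17 := by
  simp only [Fin.sum_univ_castSucc, Fin.sum_univ_zero, zero_add]
  rfl

set_option linter.unusedSimpArgs false in
set_option maxHeartbeats 4000000 in
theorem no_nine (P : Matrix (Fin 18) (Fin 18) ℝ) (hsym : P.transpose = P)
    (hpat : ∀ i j, i ≠ j → (P i j ≠ 0 ↔ G18.Adj i j)) (hPP : P * P = P) (htr : P.trace = 9) :
    False := by
  have hs : ∀ u v, P u v = P v u := fun u v => congrFun (congrFun hsym v) u
  have hz : ∀ u v, u ≠ v → ¬ G18.Adj u v → P u v = 0 := by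
    intro u v h1 h2
    by_contra h3
    exact h2 ((hpat u v h1).mp h3)
  have hn : ∀ u v, u ≠ v → G18.Adj u v → P u v ≠ 0 := fun u v h1 h2 => (hpat u v h1).mpr h2
  have hP : ∀ u v, P u 0 * P 0 v + P u 1 * P 1 v + P u 2 * P 2 v + P u 3 * P 3 v + P u 4 * P 4 v
      + P u 5 * P 5 v + P u 6 * P 6 v + P u 7 * P 7 v + P u 8 * P 8 v + P u 9 * P 9 v
      + P u 10 * P 10 v + P u 11 * P 11 v + P u 12 * P 12 v + P u 13 * P 13 v + P u 14 * P 14 v
      + P u 15 * P 15 v + P u 16 * P 16 v + P u 17 * P 17 v = P u v := by
    intro u v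
    have h := congrFun (congrFun hPP u) v
    rw [Matrix.mul_apply, sum18] at h
    exact h
  have e_0_6 : P 0 0 * P 0 6 + P 0 6 * P 6 6 = P 0 6 := by
    have h := hP 0 6
    simp only [hz 0 1 (by decide) (by decide), hz 0 8 (by decide) (by decide), hz 0 9 (by decide) (by decide), hz 0 10 (by decide) (by decide), hz 0 11 (by decide) (by decide), hz 0 12 (by decide) (by decide), hz 0 13 (by decide) (by decide), hz 0 14 (by decide) (by decide), hz 0 15 (by decide) (by decide), hz 0 16 (by decide) (by decide), hz 0 17 (by decide) (by decide), hz 2 6 (by decide) (by decide), hz 3 6 (by decide) (by decide), hz 4 6 (by decide) (by decide), hz 5 6 (by decide) (by decide), hz 7 6 (by decide) (by decide), mul_zero, zero_mul, add_zero, zero_add] at h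
    linarith [h]
  have e_1_6 : P 1 1 * P 1 6 + P 1 6 * P 6 6 = P 1 6 := by
    have h := hP 1 6
    simp only [hz 1 0 (by decide) (by decide), hz 1 8 (by decide) (by decide), hz 1 9 (by decide) (by decide), hz 1 10 (by decide) (by decide), hz 1 11 (by decide) (by decide), hz 1 12 (by decide) (by decide), hz 1 13 (by decide) (by decide), hz 1 14 (by decide) (by decide), hz 1 15 (by decide) (by decide), hz 1 16 (by decide) (by decide), hz 1 17 (by decide) (by decide), hz 2 6 (by decide) (by decide), hz 3 6 (by decide) (by decide), hz 4 6 (by decide) (by decide), hz 5 6 (by decide) (by decide), hz 7 6 (by decide) (by decide), mul_zero, zero_mul, add_zero, zero_add] at h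
    linarith [h]
  have e_0_7 : P 0 0 * P 0 7 + P 0 7 * P 7 7 = P 0 7 := by
    have h := hP 0 7
    simp only [hz 0 1 (by decide) (by decide), hz 0 8 (by decide) (by decide), hz 0 9 (by decide) (by decide), hz 0 10 (by decide) (by decide), hz 0 11 (by decide) (by decide), hz 0 12 (by decide) (by decide), hz 0 13 (by decide) (by decide), hz 0 14 (by decide) (by decide), hz 0 15 (by decide) (by decide), hz 0 16 (by decide) (by decide), hz 0 17 (by decide) (by decide), hz 2 7 (by decide) (by decide), hz 3 7 (by decide) (by decide), hz 4 7 (by decide) (by decide), hz 5 7 (by decide) (by decide), hz 6 7 (by decide) (by decide), mul_zero, zero_mul, add_zero, zero_add] at h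
    linarith [h]
  have e_12_6 : P 6 12 * P 6 6 + P 12 12 * P 6 12 = P 6 12 := by
    have h := hP 12 6
    simp only [hz 7 6 (by decide) (by decide), hz 12 0 (by decide) (by decide), hz 12 1 (by decide) (by decide), hz 12 2 (by decide) (by decide), hz 12 3 (by decide) (by decide), hz 12 4 (by decide) (by decide), hz 12 5 (by decide) (by decide), hz 12 8 (by decide) (by decide), hz 12 9 (by decide) (by decide), hz 12 10 (by decide) (by decide), hz 12 11 (by decide) (by decide), hz 12 13 (by decide) (by decide), hz 14 6 (by decide) (by decide), hz 15 6 (by decide) (by decide), hz 16 6 (by decide) (by decide), hz 17 6 (by decide) (by decide), mul_zero, zero_mul, add_zero, zero_add] at h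
    simp only [hs 12 6] at h
    linarith [h]
  have e_13_6 : P 6 13 * P 6 6 + P 13 13 * P 6 13 = P 6 13 := by
    have h := hP 13 6
    simp only [hz 7 6 (by decide) (by decide), hz 13 0 (by decide) (by decide), hz 13 1 (by decide) (by decide), hz 13 2 (by decide) (by decide), hz 13 3 (by decide) (by decide), hz 13 4 (by decide) (by decide), hz 13 5 (by decide) (by decide), hz 13 8 (by decide) (by decide), hz 13 9 (by decide) (by decide), hz 13 10 (by decide) (by decide), hz 13 11 (by decide) (by decide), hz 13 12 (by decide) (by decide), hz 14 6 (by decide) (by decide), hz 15 6 (by decide) (by decide), hz 16 6 (by decide) (by decide), hz 17 6 (by decide) (by decide), mul_zero, zero_mul, add_zero, zero_add] at h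
    simp only [hs 13 6] at h
    linarith [h]
  have e_2_8 : P 2 2 * P 2 8 + P 2 8 * P 8 8 = P 2 8 := by
    have h := hP 2 8
    simp only [hz 0 8 (by decide) (by decide), hz 1 8 (by decide) (by decide), hz 2 3 (by decide) (by decide), hz 2 6 (by decide) (by decide), hz 2 7 (by decide) (by decide), hz 2 10 (by decide) (by decide), hz 2 11 (by decide) (by decide), hz 2 12 (by decide) (by decide), hz 2 13 (by decide) (by decide), hz 2 14 (by decide) (by decide), hz 2 15 (by decide) (by decide), hz 2 16 (by decide) (by decide), hz 2 17 (by decide) (by decide), hz 4 8 (by decide) (by decide), hz 5 8 (by decide) (by decide), hz 9 8 (by decide) (by decide), mul_zero, zero_mul, add_zero, zero_add] at h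
    linarith [h]
  have e_3_8 : P 3 3 * P 3 8 + P 3 8 * P 8 8 = P 3 8 := by
    have h := hP 3 8
    simp only [hz 0 8 (by decide) (by decide), hz 1 8 (by decide) (by decide), hz 3 2 (by decide) (by decide), hz 3 6 (by decide) (by decide), hz 3 7 (by decide) (by decide), hz 3 10 (by decide) (by decide), hz 3 11 (by decide) (by decide), hz 3 12 (by decide) (by decide), hz 3 13 (by decide) (by decide), hz 3 14 (by decide) (by decide), hz 3 15 (by decide) (by decide), hz 3 16 (by decide) (by decide), hz 3 17 (by decide) (by decide), hz 4 8 (by decide) (by decide), hz 5 8 (by decide) (by decide), hz 9 8 (by decide) (by decide), mul_zero, zero_mul, add_zero, zero_add] at h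
    linarith [h]
  have e_2_9 : P 2 2 * P 2 9 + P 2 9 * P 9 9 = P 2 9 := by
    have h := hP 2 9
    simp only [hz 0 9 (by decide) (by decide), hz 1 9 (by decide) (by decide), hz 2 3 (by decide) (by decide), hz 2 6 (by decide) (by decide), hz 2 7 (by decide) (by decide), hz 2 10 (by decide) (by decide), hz 2 11 (by decide) (by decide), hz 2 12 (by decide) (by decide), hz 2 13 (by decide) (by decide), hz 2 14 (by decide) (by decide), hz 2 15 (by decide) (by decide), hz 2 16 (by decide) (by decide), hz 2 17 (by decide) (by decide), hz 4 9 (by decide) (by decide), hz 5 9 (by decide) (by decide), hz 8 9 (by decide) (by decide), mul_zero, zero_mul, add_zero, zero_add] at h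
    linarith [h]
  have e_14_8 : P 8 14 * P 8 8 + P 14 14 * P 8 14 = P 8 14 := by
    have h := hP 14 8
    simp only [hz 9 8 (by decide) (by decide), hz 12 8 (by decide) (by decide), hz 13 8 (by decide) (by decide), hz 14 0 (by decide) (by decide), hz 14 1 (by decide) (by decide), hz 14 2 (by decide) (by decide), hz 14 3 (by decide) (by decide), hz 14 4 (by decide) (by decide), hz 14 5 (by decide) (by decide), hz 14 6 (by decide) (by decide), hz 14 7 (by decide) (by decide), hz 14 10 (by decide) (by decide), hz 14 11 (by decide) (by decide), hz 14 15 (by decide) (by decide), hz 16 8 (by decide) (by decide), hz 17 8 (by decide) (by decide), mul_zero, zero_mul, add_zero, zero_add] at h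
    simp only [hs 14 8] at h
    linarith [h]
  have e_15_8 : P 8 15 * P 8 8 + P 15 15 * P 8 15 = P 8 15 := by
    have h := hP 15 8
    simp only [hz 9 8 (by decide) (by decide), hz 12 8 (by decide) (by decide), hz 13 8 (by decide) (by decide), hz 15 0 (by decide) (by decide), hz 15 1 (by decide) (by decide), hz 15 2 (by decide) (by decide), hz 15 3 (by decide) (by decide), hz 15 4 (by decide) (by decide), hz 15 5 (by decide) (by decide), hz 15 6 (by decide) (by decide), hz 15 7 (by decide) (by decide), hz 15 10 (by decide) (by decide), hz 15 11 (by decide) (by decide), hz 15 14 (by decide) (by decide), hz 16 8 (by decide) (by decide), hz 17 8 (by decide) (by decide), mul_zero, zero_mul, add_zero, zero_add] at h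
    simp only [hs 15 8] at h
    linarith [h]
  have e_4_10 : P 4 4 * P 4 10 + P 4 10 * P 10 10 = P 4 10 := by
    have h := hP 4 10
    simp only [hz 0 10 (by decide) (by decide), hz 1 10 (by decide) (by decide), hz 2 10 (by decide) (by decide), hz 3 10 (by decide) (by decide), hz 4 5 (by decide) (by decide), hz 4 6 (by decide) (by decide), hz 4 7 (by decide) (by decide), hz 4 8 (by decide) (by decide), hz 4 9 (by decide) (by decide), hz 4 12 (by decide) (by decide), hz 4 13 (by decide) (by decide), hz 4 14 (by decide) (by decide), hz 4 15 (by decide) (by decide), hz 4 16 (by decide) (by decide), hz 4 17 (by decide) (by decide), hz 11 10 (by decide) (by decide), mul_zero, zero_mul, add_zero, zero_add] at h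
    linarith [h]
  have e_5_10 : P 5 5 * P 5 10 + P 5 10 * P 10 10 = P 5 10 := by
    have h := hP 5 10
    simp only [hz 0 10 (by decide) (by decide), hz 1 10 (by decide) (by decide), hz 2 10 (by decide) (by decide), hz 3 10 (by decide) (by decide), hz 5 4 (by decide) (by decide), hz 5 6 (by decide) (by decide), hz 5 7 (by decide) (by decide), hz 5 8 (by decide) (by decide), hz 5 9 (by decide) (by decide), hz 5 12 (by decide) (by decide), hz 5 13 (by decide) (by decide), hz 5 14 (by decide) (by decide), hz 5 15 (by decide) (by decide), hz 5 16 (by decide) (by decide), hz 5 17 (by decide) (by decide), hz 11 10 (by decide) (by decide), mul_zero, zero_mul, add_zero, zero_add] at h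
    linarith [h]
  have e_4_11 : P 4 4 * P 4 11 + P 4 11 * P 11 11 = P 4 11 := by
    have h := hP 4 11
    simp only [hz 0 11 (by decide) (by decide), hz 1 11 (by decide) (by decide), hz 2 11 (by decide) (by decide), hz 3 11 (by decide) (by decide), hz 4 5 (by decide) (by decide), hz 4 6 (by decide) (by decide), hz 4 7 (by decide) (by decide), hz 4 8 (by decide) (by decide), hz 4 9 (by decide) (by decide), hz 4 12 (by decide) (by decide), hz 4 13 (by decide) (by decide), hz 4 14 (by decide) (by decide), hz 4 15 (by decide) (by decide), hz 4 16 (by decide) (by decide), hz 4 17 (by decide) (by decide), hz 10 11 (by decide) (by decide), mul_zero, zero_mul, add_zero, zero_add] at h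
    linarith [h]
  have e_16_10 : P 10 16 * P 10 10 + P 16 16 * P 10 16 = P 10 16 := by
    have h := hP 16 10
    simp only [hz 11 10 (by decide) (by decide), hz 12 10 (by decide) (by decide), hz 13 10 (by decide) (by decide), hz 14 10 (by decide) (by decide), hz 15 10 (by decide) (by decide), hz 16 0 (by decide) (by decide), hz 16 1 (by decide) (by decide), hz 16 2 (by decide) (by decide), hz 16 3 (by decide) (by decide), hz 16 4 (by decide) (by decide), hz 16 5 (by decide) (by decide), hz 16 6 (by decide) (by decide), hz 16 7 (by decide) (by decide), hz 16 8 (by decide) (by decide), hz 16 9 (by decide) (by decide), hz 16 17 (by decide) (by decide), mul_zero, zero_mul, add_zero, zero_add] at h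
    simp only [hs 16 10] at h
    linarith [h]
  have e_17_10 : P 10 17 * P 10 10 + P 17 17 * P 10 17 = P 10 17 := by
    have h := hP 17 10
    simp only [hz 11 10 (by decide) (by decide), hz 12 10 (by decide) (by decide), hz 13 10 (by decide) (by decide), hz 14 10 (by decide) (by decide), hz 15 10 (by decide) (by decide), hz 17 0 (by decide) (by decide), hz 17 1 (by decide) (by decide), hz 17 2 (by decide) (by decide), hz 17 3 (by decide) (by decide), hz 17 4 (by decide) (by decide), hz 17 5 (by decide) (by decide), hz 17 6 (by decide) (by decide), hz 17 7 (by decide) (by decide), hz 17 8 (by decide) (by decide), hz 17 9 (by decide) (by decide), hz 17 16 (by decide) (by decide), mul_zero, zero_mul, add_zero, zero_add] at h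
    simp only [hs 17 10] at h
    linarith [h]
  have e_6_2 : P 0 6 * P 0 2 + P 1 6 * P 1 2 = 0 := by
    have h := hP 6 2
    simp only [hz 6 2 (by decide) (by decide), hz 6 3 (by decide) (by decide), hz 6 4 (by decide) (by decide), hz 6 5 (by decide) (by decide), hz 6 7 (by decide) (by decide), hz 6 8 (by decide) (by decide), hz 6 9 (by decide) (by decide), hz 6 10 (by decide) (by decide), hz 6 11 (by decide) (by decide), hz 6 14 (by decide) (by decide), hz 6 15 (by decide) (by decide), hz 6 16 (by decide) (by decide), hz 6 17 (by decide) (by decide), hz 12 2 (by decide) (by decide), hz 13 2 (by decide) (by decide), mul_zero, zero_mul, add_zero, zero_add] at h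
    simp only [hs 6 0, hs 6 1, hs 6 2] at h
    linarith [h]
  have e_6_3 : P 0 6 * P 0 3 + P 1 6 * P 1 3 = 0 := by
    have h := hP 6 3
    simp only [hz 6 2 (by decide) (by decide), hz 6 3 (by decide) (by decide), hz 6 4 (by decide) (by decide), hz 6 5 (by decide) (by decide), hz 6 7 (by decide) (by decide), hz 6 8 (by decide) (by decide), hz 6 9 (by decide) (by decide), hz 6 10 (by decide) (by decide), hz 6 11 (by decide) (by decide), hz 6 14 (by decide) (by decide), hz 6 15 (by decide) (by decide), hz 6 16 (by decide) (by decide), hz 6 17 (by decide) (by decide), hz 12 3 (by decide) (by decide), hz 13 3 (by decide) (by decide), mul_zero, zero_mul, add_zero, zero_add] at h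
    simp only [hs 6 0, hs 6 1, hs 6 3] at h
    linarith [h]
  have e_6_4 : P 0 6 * P 0 4 + P 1 6 * P 1 4 = 0 := by
    have h := hP 6 4
    simp only [hz 6 2 (by decide) (by decide), hz 6 3 (by decide) (by decide), hz 6 4 (by decide) (by decide), hz 6 5 (by decide) (by decide), hz 6 7 (by decide) (by decide), hz 6 8 (by decide) (by decide), hz 6 9 (by decide) (by decide), hz 6 10 (by decide) (by decide), hz 6 11 (by decide) (by decide), hz 6 14 (by decide) (by decide), hz 6 15 (by decide) (by decide), hz 6 16 (by decide) (by decide), hz 6 17 (by decide) (by decide), hz 12 4 (by decide) (by decide), hz 13 4 (by decide) (by decide), mul_zero, zero_mul, add_zero, zero_add] at h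
    simp only [hs 6 0, hs 6 1, hs 6 4] at h
    linarith [h]
  have e_6_5 : P 0 6 * P 0 5 + P 1 6 * P 1 5 = 0 := by
    have h := hP 6 5
    simp only [hz 6 2 (by decide) (by decide), hz 6 3 (by decide) (by decide), hz 6 4 (by decide) (by decide), hz 6 5 (by decide) (by decide), hz 6 7 (by decide) (by decide), hz 6 8 (by decide) (by decide), hz 6 9 (by decide) (by decide), hz 6 10 (by decide) (by decide), hz 6 11 (by decide) (by decide), hz 6 14 (by decide) (by decide), hz 6 15 (by decide) (by decide), hz 6 16 (by decide) (by decide), hz 6 17 (by decide) (by decide), hz 12 5 (by decide) (by decide), hz 13 5 (by decide) (by decide), mul_zero, zero_mul, add_zero, zero_add] at h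
    simp only [hs 6 0, hs 6 1, hs 6 5] at h
    linarith [h]
  have e_8_0 : P 2 8 * P 0 2 + P 3 8 * P 0 3 = 0 := by
    have h := hP 8 0
    simp only [hz 8 0 (by decide) (by decide), hz 8 1 (by decide) (by decide), hz 8 4 (by decide) (by decide), hz 8 5 (by decide) (by decide), hz 8 6 (by decide) (by decide), hz 8 7 (by decide) (by decide), hz 8 9 (by decide) (by decide), hz 8 10 (by decide) (by decide), hz 8 11 (by decide) (by decide), hz 8 12 (by decide) (by decide), hz 8 13 (by decide) (by decide), hz 8 16 (by decide) (by decide), hz 8 17 (by decide) (by decide), hz 14 0 (by decide) (by decide), hz 15 0 (by decide) (by decide), mul_zero, zero_mul, add_zero, zero_add] at h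
    simp only [hs 2 0, hs 3 0, hs 8 0, hs 8 2, hs 8 3] at h
    linarith [h]
  have e_8_1 : P 2 8 * P 1 2 + P 3 8 * P 1 3 = 0 := by
    have h := hP 8 1
    simp only [hz 8 0 (by decide) (by decide), hz 8 1 (by decide) (by decide), hz 8 4 (by decide) (by decide), hz 8 5 (by decide) (by decide), hz 8 6 (by decide) (by decide), hz 8 7 (by decide) (by decide), hz 8 9 (by decide) (by decide), hz 8 10 (by decide) (by decide), hz 8 11 (by decide) (by decide), hz 8 12 (by decide) (by decide), hz 8 13 (by decide) (by decide), hz 8 16 (by decide) (by decide), hz 8 17 (by decide) (by decide), hz 14 1 (by decide) (by decide), hz 15 1 (by decide) (by decide), mul_zero, zero_mul, add_zero, zero_add] at h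
    simp only [hs 2 1, hs 3 1, hs 8 1, hs 8 2, hs 8 3] at h
    linarith [h]
  have e_8_4 : P 2 8 * P 2 4 + P 3 8 * P 3 4 = 0 := by
    have h := hP 8 4
    simp only [hz 8 0 (by decide) (by decide), hz 8 1 (by decide) (by decide), hz 8 4 (by decide) (by decide), hz 8 5 (by decide) (by decide), hz 8 6 (by decide) (by decide), hz 8 7 (by decide) (by decide), hz 8 9 (by decide) (by decide), hz 8 10 (by decide) (by decide), hz 8 11 (by decide) (by decide), hz 8 12 (by decide) (by decide), hz 8 13 (by decide) (by decide), hz 8 16 (by decide) (by decide), hz 8 17 (by decide) (by decide), hz 14 4 (by decide) (by decide), hz 15 4 (by decide) (by decide), mul_zero, zero_mul, add_zero, zero_add] at h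
    simp only [hs 8 2, hs 8 3, hs 8 4] at h
    linarith [h]
  have e_8_5 : P 2 8 * P 2 5 + P 3 8 * P 3 5 = 0 := by
    have h := hP 8 5
    simp only [hz 8 0 (by decide) (by decide), hz 8 1 (by decide) (by decide), hz 8 4 (by decide) (by decide), hz 8 5 (by decide) (by decide), hz 8 6 (by decide) (by decide), hz 8 7 (by decide) (by decide), hz 8 9 (by decide) (by decide), hz 8 10 (by decide) (by decide), hz 8 11 (by decide) (by decide), hz 8 12 (by decide) (by decide), hz 8 13 (by decide) (by decide), hz 8 16 (by decide) (by decide), hz 8 17 (by decide) (by decide), hz 14 5 (by decide) (by decide), hz 15 5 (by decide) (by decide), mul_zero, zero_mul, add_zero, zero_add] at h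
    simp only [hs 8 2, hs 8 3, hs 8 5] at h
    linarith [h]
  have e_10_0 : P 4 10 * P 0 4 + P 5 10 * P 0 5 = 0 := by
    have h := hP 10 0
    simp only [hz 10 0 (by decide) (by decide), hz 10 1 (by decide) (by decide), hz 10 2 (by decide) (by decide), hz 10 3 (by decide) (by decide), hz 10 6 (by decide) (by decide), hz 10 7 (by decide) (by decide), hz 10 8 (by decide) (by decide), hz 10 9 (by decide) (by decide), hz 10 11 (by decide) (by decide), hz 10 12 (by decide) (by decide), hz 10 13 (by decide) (by decide), hz 10 14 (by decide) (by decide), hz 10 15 (by decide) (by decide), hz 16 0 (by decide) (by decide), hz 17 0 (by decide) (by decide), mul_zero, zero_mul, add_zero, zero_add] at h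
    simp only [hs 4 0, hs 5 0, hs 10 0, hs 10 4, hs 10 5] at h
    linarith [h]
  have e_10_1 : P 4 10 * P 1 4 + P 5 10 * P 1 5 = 0 := by
    have h := hP 10 1
    simp only [hz 10 0 (by decide) (by decide), hz 10 1 (by decide) (by decide), hz 10 2 (by decide) (by decide), hz 10 3 (by decide) (by decide), hz 10 6 (by decide) (by decide), hz 10 7 (by decide) (by decide), hz 10 8 (by decide) (by decide), hz 10 9 (by decide) (by decide), hz 10 11 (by decide) (by decide), hz 10 12 (by decide) (by decide), hz 10 13 (by decide) (by decide), hz 10 14 (by decide) (by decide), hz 10 15 (by decide) (by decide), hz 16 1 (by decide) (by decide), hz 17 1 (by decide) (by decide), mul_zero, zero_mul, add_zero, zero_add] at h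
    simp only [hs 4 1, hs 5 1, hs 10 1, hs 10 4, hs 10 5] at h
    linarith [h]
  have e_10_2 : P 4 10 * P 2 4 + P 5 10 * P 2 5 = 0 := by
    have h := hP 10 2
    simp only [hz 10 0 (by decide) (by decide), hz 10 1 (by decide) (by decide), hz 10 2 (by decide) (by decide), hz 10 3 (by decide) (by decide), hz 10 6 (by decide) (by decide), hz 10 7 (by decide) (by decide), hz 10 8 (by decide) (by decide), hz 10 9 (by decide) (by decide), hz 10 11 (by decide) (by decide), hz 10 12 (by decide) (by decide), hz 10 13 (by decide) (by decide), hz 10 14 (by decide) (by decide), hz 10 15 (by decide) (by decide), hz 16 2 (by decide) (by decide), hz 17 2 (by decide) (by decide), mul_zero, zero_mul, add_zero, zero_add] at h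
    simp only [hs 4 2, hs 5 2, hs 10 2, hs 10 4, hs 10 5] at h
    linarith [h]
  have e_10_3 : P 4 10 * P 3 4 + P 5 10 * P 3 5 = 0 := by
    have h := hP 10 3
    simp only [hz 10 0 (by decide) (by decide), hz 10 1 (by decide) (by decide), hz 10 2 (by decide) (by decide), hz 10 3 (by decide) (by decide), hz 10 6 (by decide) (by decide), hz 10 7 (by decide) (by decide), hz 10 8 (by decide) (by decide), hz 10 9 (by decide) (by decide), hz 10 11 (by decide) (by decide), hz 10 12 (by decide) (by decide), hz 10 13 (by decide) (by decide), hz 10 14 (by decide) (by decide), hz 10 15 (by decide) (by decide), hz 16 3 (by decide) (by decide), hz 17 3 (by decide) (by decide), mul_zero, zero_mul, add_zero, zero_add] at h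
    simp only [hs 4 3, hs 5 3, hs 10 3, hs 10 4, hs 10 5] at h
    linarith [h]
  have e_7_2 : P 0 7 * P 0 2 + P 1 7 * P 1 2 = 0 := by
    have h := hP 7 2
    simp only [hz 7 2 (by decide) (by decide), hz 7 3 (by decide) (by decide), hz 7 4 (by decide) (by decide), hz 7 5 (by decide) (by decide), hz 7 6 (by decide) (by decide), hz 7 8 (by decide) (by decide), hz 7 9 (by decide) (by decide), hz 7 10 (by decide) (by decide), hz 7 11 (by decide) (by decide), hz 7 14 (by decide) (by decide), hz 7 15 (by decide) (by decide), hz 7 16 (by decide) (by decide), hz 7 17 (by decide) (by decide), hz 12 2 (by decide) (by decide), hz 13 2 (by decide) (by decide), mul_zero, zero_mul, add_zero, zero_add] at h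
    simp only [hs 7 0, hs 7 1, hs 7 2] at h
    linarith [h]
  have e_0_2 : P 0 0 * P 0 2 + P 0 2 * P 2 2 + P 0 4 * P 2 4 + P 0 5 * P 2 5 = P 0 2 := by
    have h := hP 0 2
    simp only [hz 0 1 (by decide) (by decide), hz 0 8 (by decide) (by decide), hz 0 9 (by decide) (by decide), hz 0 10 (by decide) (by decide), hz 0 11 (by decide) (by decide), hz 0 12 (by decide) (by decide), hz 0 13 (by decide) (by decide), hz 0 14 (by decide) (by decide), hz 0 15 (by decide) (by decide), hz 0 16 (by decide) (by decide), hz 0 17 (by decide) (by decide), hz 3 2 (by decide) (by decide), hz 6 2 (by decide) (by decide), hz 7 2 (by decide) (by decide), mul_zero, zero_mul, add_zero, zero_add] at h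
    simp only [hs 4 2, hs 5 2] at h
    linarith [h]
  have e_0_4 : P 0 0 * P 0 4 + P 0 2 * P 2 4 + P 0 3 * P 3 4 + P 0 4 * P 4 4 = P 0 4 := by
    have h := hP 0 4
    simp only [hz 0 1 (by decide) (by decide), hz 0 8 (by decide) (by decide), hz 0 9 (by decide) (by decide), hz 0 10 (by decide) (by decide), hz 0 11 (by decide) (by decide), hz 0 12 (by decide) (by decide), hz 0 13 (by decide) (by decide), hz 0 14 (by decide) (by decide), hz 0 15 (by decide) (by decide), hz 0 16 (by decide) (by decide), hz 0 17 (by decide) (by decide), hz 5 4 (by decide) (by decide), hz 6 4 (by decide) (by decide), hz 7 4 (by decide) (by decide), mul_zero, zero_mul, add_zero, zero_add] at h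
    linarith [h]
  have e_2_4 : P 0 2 * P 0 4 + P 1 2 * P 1 4 + P 2 2 * P 2 4 + P 2 4 * P 4 4 = P 2 4 := by
    have h := hP 2 4
    simp only [hz 2 3 (by decide) (by decide), hz 2 6 (by decide) (by decide), hz 2 7 (by decide) (by decide), hz 2 10 (by decide) (by decide), hz 2 11 (by decide) (by decide), hz 2 12 (by decide) (by decide), hz 2 13 (by decide) (by decide), hz 2 14 (by decide) (by decide), hz 2 15 (by decide) (by decide), hz 2 16 (by decide) (by decide), hz 2 17 (by decide) (by decide), hz 5 4 (by decide) (by decide), hz 8 4 (by decide) (by decide), hz 9 4 (by decide) (by decide), mul_zero, zero_mul, add_zero, zero_add] at h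
    simp only [hs 2 0, hs 2 1] at h
    linarith [h]
  have e_0_0 : P 0 0 * P 0 0 + P 0 2 * P 0 2 + P 0 3 * P 0 3 + P 0 4 * P 0 4 + P 0 5 * P 0 5 + P 0 6 * P 0 6 + P 0 7 * P 0 7 = P 0 0 := by
    have h := hP 0 0
    simp only [hz 0 1 (by decide) (by decide), hz 0 8 (by decide) (by decide), hz 0 9 (by decide) (by decide), hz 0 10 (by decide) (by decide), hz 0 11 (by decide) (by decide), hz 0 12 (by decide) (by decide), hz 0 13 (by decide) (by decide), hz 0 14 (by decide) (by decide), hz 0 15 (by decide) (by decide), hz 0 16 (by decide) (by decide), hz 0 17 (by decide) (by decide), mul_zero, zero_mul, add_zero, zero_add] at h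
    simp only [hs 2 0, hs 3 0, hs 4 0, hs 5 0, hs 6 0, hs 7 0] at h
    linarith [h]
  have e_0_1 : P 0 2 * P 1 2 + P 0 3 * P 1 3 + P 0 4 * P 1 4 + P 0 5 * P 1 5 + P 0 6 * P 1 6 + P 0 7 * P 1 7 = 0 := by
    have h := hP 0 1
    simp only [hz 0 1 (by decide) (by decide), hz 0 8 (by decide) (by decide), hz 0 9 (by decide) (by decide), hz 0 10 (by decide) (by decide), hz 0 11 (by decide) (by decide), hz 0 12 (by decide) (by decide), hz 0 13 (by decide) (by decide), hz 0 14 (by decide) (by decide), hz 0 15 (by decide) (by decide), hz 0 16 (by decide) (by decide), hz 0 17 (by decide) (by decide), mul_zero, zero_mul, add_zero, zero_add] at h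
    simp only [hs 2 1, hs 3 1, hs 4 1, hs 5 1, hs 6 1, hs 7 1] at h
    linarith [h]

  have diag : ∀ {a b c : ℝ}, c ≠ 0 → a * c + c * b = c → a + b = 1 := by
    intro a b c hc h
    have h2 : c * (a + b) = c * 1 := by linarith
    exact mul_left_cancel₀ hc h2
  have d_0_6 : P 0 0 + P 6 6 = 1 :=
    diag (hn 0 6 (by decide) (by decide)) (by linarith [e_0_6])
  have d_1_6 : P 1 1 + P 6 6 = 1 :=
    diag (hn 1 6 (by decide) (by decide)) (by linarith [e_1_6])
  have d_0_7 : P 0 0 + P 7 7 = 1 :=
    diag (hn 0 7 (by decide) (by decide)) (by linarith [e_0_7])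
  have d_12_6 : P 12 12 + P 6 6 = 1 :=
    diag (hn 6 12 (by decide) (by decide)) (by linarith [e_12_6])
  have d_13_6 : P 13 13 + P 6 6 = 1 :=
    diag (hn 6 13 (by decide) (by decide)) (by linarith [e_13_6])
  have d_2_8 : P 2 2 + P 8 8 = 1 :=
    diag (hn 2 8 (by decide) (by decide)) (by linarith [e_2_8])
  have d_3_8 : P 3 3 + P 8 8 = 1 :=
    diag (hn 3 8 (by decide) (by decide)) (by linarith [e_3_8])
  have d_2_9 : P 2 2 + P 9 9 = 1 :=
    diag (hn 2 9 (by decide) (by decide)) (by linarith [e_2_9])
  have d_14_8 : P 14 14 + P 8 8 = 1 :=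
    diag (hn 8 14 (by decide) (by decide)) (by linarith [e_14_8])
  have d_15_8 : P 15 15 + P 8 8 = 1 :=
    diag (hn 8 15 (by decide) (by decide)) (by linarith [e_15_8])
  have d_4_10 : P 4 4 + P 10 10 = 1 :=
    diag (hn 4 10 (by decide) (by decide)) (by linarith [e_4_10])
  have d_5_10 : P 5 5 + P 10 10 = 1 :=
    diag (hn 5 10 (by decide) (by decide)) (by linarith [e_5_10])
  have d_4_11 : P 4 4 + P 11 11 = 1 :=
    diag (hn 4 11 (by decide) (by decide)) (by linarith [e_4_11])
  have d_16_10 : P 16 16 + P 10 10 = 1 :=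
    diag (hn 10 16 (by decide) (by decide)) (by linarith [e_16_10])
  have d_17_10 : P 17 17 + P 10 10 = 1 :=
    diag (hn 10 17 (by decide) (by decide)) (by linarith [e_17_10])

  have htr2 : P 0 0 + P 1 1 + P 2 2 + P 3 3 + P 4 4 + P 5 5 + P 6 6 + P 7 7 + P 8 8 + P 9 9
      + P 10 10 + P 11 11 + P 12 12 + P 13 13 + P 14 14 + P 15 15 + P 16 16 + P 17 17 = 9 := by
    rw [← htr, Matrix.trace, sum18]
    rfl
  have hsum : P 0 0 + P 2 2 + P 4 4 = 3 / 2 := by
    linarith [d_0_6, d_1_6, d_0_7, d_12_6, d_13_6, d_2_8, d_3_8, d_2_9, d_14_8, d_15_8, d_4_10, d_5_10, d_4_11, d_16_10, d_17_10]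

  have n02 := hn 0 2 (by decide) (by decide)
  have n04 := hn 0 4 (by decide) (by decide)
  have n24 := hn 2 4 (by decide) (by decide)
  have n06 := hn 0 6 (by decide) (by decide)
  have n16 := hn 1 6 (by decide) (by decide)
  have n28 := hn 2 8 (by decide) (by decide)
  have n38 := hn 3 8 (by decide) (by decide)
  have n410 := hn 4 10 (by decide) (by decide)
  have n510 := hn 5 10 (by decide) (by decide)
  obtain ⟨r0, hr0⟩ : ∃ r, P 0 6 = -(r * P 1 6) := ⟨-(P 0 6 / P 1 6), by field_simp⟩
  obtain ⟨r1, hr1⟩ : ∃ r, P 2 8 = -(r * P 3 8) := ⟨-(P 2 8 / P 3 8), by field_simp⟩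
  obtain ⟨r2, hr2⟩ : ∃ r, P 4 10 = -(r * P 5 10) := ⟨-(P 4 10 / P 5 10), by field_simp⟩
  have hr0ne : r0 ≠ 0 := by
    rintro rfl
    apply n06
    rw [hr0]
    ring
  have par : ∀ {r g h a b : ℝ}, h ≠ 0 → g = -(r * h) → g * a + h * b = 0 → b = r * a := by
    intro r g h a b hh hg he
    subst hg
    have h2 : h * b = h * (r * a) := by linarith
    exact mul_left_cancel₀ hh h2
  have p_1_2 : P 1 2 = r0 * P 0 2 :=
    par n16 hr0 (by linarith [e_6_2])
  have p_1_3 : P 1 3 = r0 * P 0 3 :=
    par n16 hr0 (by linarith [e_6_3])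
  have p_1_4 : P 1 4 = r0 * P 0 4 :=
    par n16 hr0 (by linarith [e_6_4])
  have p_1_5 : P 1 5 = r0 * P 0 5 :=
    par n16 hr0 (by linarith [e_6_5])
  have p_3_0 : P 0 3 = r1 * P 0 2 :=
    par n38 hr1 (by linarith [e_8_0])
  have p_3_1 : P 1 3 = r1 * P 1 2 :=
    par n38 hr1 (by linarith [e_8_1])
  have p_3_4 : P 3 4 = r1 * P 2 4 :=
    par n38 hr1 (by linarith [e_8_4])
  have p_3_5 : P 3 5 = r1 * P 2 5 :=
    par n38 hr1 (by linarith [e_8_5])
  have p_5_0 : P 0 5 = r2 * P 0 4 :=
    par n510 hr2 (by linarith [e_10_0])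
  have p_5_1 : P 1 5 = r2 * P 1 4 :=
    par n510 hr2 (by linarith [e_10_1])
  have p_5_2 : P 2 5 = r2 * P 2 4 :=
    par n510 hr2 (by linarith [e_10_2])
  have p_5_3 : P 3 5 = r2 * P 3 4 :=
    par n510 hr2 (by linarith [e_10_3])

  have h07 : P 0 7 = -(r0 * P 1 7) := by
    have h : P 0 2 * P 0 7 = P 0 2 * (-(r0 * P 1 7)) := by
      have h2 := e_7_2
      rw [p_1_2] at h2
      linarith
    exact mul_left_cancel₀ n02 h
  have k1 : P 1 6 ^ 2 + P 1 7 ^ 2 =
      P 0 2 ^ 2 * (1 + r1 ^ 2) + P 0 4 ^ 2 * (1 + r2 ^ 2) := by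
    have h : r0 * (P 1 6 ^ 2 + P 1 7 ^ 2) =
        r0 * (P 0 2 ^ 2 * (1 + r1 ^ 2) + P 0 4 ^ 2 * (1 + r2 ^ 2)) := by
      have h2 := e_0_1
      rw [p_1_2, p_1_3, p_1_4, p_1_5, p_3_0, p_5_0, hr0, h07] at h2
      linarith
    exact mul_left_cancel₀ hr0ne h
  have k2 : P 0 0 ^ 2 + (1 + r0 ^ 2) * (P 0 2 ^ 2 * (1 + r1 ^ 2) + P 0 4 ^ 2 * (1 + r2 ^ 2))
      = P 0 0 := by
    have h2 := e_0_0
    rw [p_3_0, p_5_0, hr0, h07] at h2
    have h3 : r0 ^ 2 * (P 1 6 ^ 2 + P 1 7 ^ 2) =
        r0 ^ 2 * (P 0 2 ^ 2 * (1 + r1 ^ 2) + P 0 4 ^ 2 * (1 + r2 ^ 2)) := by rw [k1]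
    linarith
  have k12 : (P 0 0 + P 2 2 - 1) * P 0 2 + P 0 4 * P 2 4 * (1 + r2 ^ 2) = 0 := by
    have h2 := e_0_2
    rw [p_5_0, p_5_2] at h2
    linarith
  have k13 : (P 0 0 + P 4 4 - 1) * P 0 4 + P 0 2 * P 2 4 * (1 + r1 ^ 2) = 0 := by
    have h2 := e_0_4
    rw [p_3_0, p_3_4] at h2
    linarith
  have k23 : (P 2 2 + P 4 4 - 1) * P 2 4 + P 0 2 * P 0 4 * (1 + r0 ^ 2) = 0 := by
    have h2 := e_2_4
    rw [p_1_2, p_1_4] at h2
    linarith
  have hfin := core n02 n04 n24 k12 k13 k23 k2
  rw [hsum] at hfin
  norm_num at hfin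

theorem not_achieves_nine : ¬ Achieves G18 9 := by
  rintro ⟨A, ⟨hsym, hpat⟩, lam, mu, hne, _, h1, h2⟩
  obtain ⟨hPP, htr⟩ := exists_proj (by norm_num) hne h1 h2
  have hml : mu - lam ≠ 0 := sub_ne_zero.mpr (Ne.symm hne)
  apply no_nine _ _ _ hPP (by rw [htr]; norm_num)
  · rw [Matrix.transpose_smul, Matrix.transpose_sub, hsym, Matrix.transpose_smul,
      Matrix.transpose_one]
  · intro i j hij
    rw [← hpat i j hij]
    simp [hij, hml]

theorem G18_conn : G18.Connected := by
  have a : ∀ u v, adjB u v = true → G18.Reachable u v := fun u v h => SimpleGraph.Adj.reachable h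
  have h0 : ∀ v : Fin 18, ∃ x y z : Fin 18, (adjB 0 x = true ∨ x = 0) ∧ (adjB x y = true ∨ x = y) ∧
      (adjB y z = true ∨ y = z) ∧ (adjB z v = true ∨ z = v) := by decide +kernel
  have h1 : ∀ v, G18.Reachable 0 v := by
    intro v
    obtain ⟨x, y, z, h1, h2, h3, h4⟩ := h0 v
    have r1 : G18.Reachable 0 x := by
      rcases h1 with h | rfl
      · exact a _ _ h
      · exact SimpleGraph.Reachable.refl _
    have r2 : G18.Reachable x y := by
      rcases h2 with h | rfl
      · exact a _ _ h
      · exact SimpleGraph.Reachable.refl _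
    have r3 : G18.Reachable y z := by
      rcases h3 with h | rfl
      · exact a _ _ h
      · exact SimpleGraph.Reachable.refl _
    have r4 : G18.Reachable z v := by
      rcases h4 with h | rfl
      · exact a _ _ h
      · exact SimpleGraph.Reachable.refl _
    exact ((r1.trans r2).trans r3).trans r4
  exact ⟨fun u v => (h1 u).symm.trans (h1 v)⟩

/-- The nesting `MP([n-k,k]) ⊆ MP([n-k-1,k+1])` fails: for `n = 18`, `k = 8` there is even a
connected graph that achieves `[10, 8]` but not `[9, 9]`. -/
theorem result : ∃ G : SimpleGraph (Fin 18), G.Connected ∧ G ∈ MP 18 8 ∧ G ∉ MP 18 9 :=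
  ⟨G18, G18_conn, achieves_eight, not_achieves_nine⟩

end Pool.Agent.Results.MP_808179_co.NestingFails
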